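import Pool.Agent.W323.PT.Stm

/-!
# Project PT (helper323), part LP (helper347)
-/

set_option autoImplicit false

namespace Pool.Agent.W347.PT

open Pool.Agent.W323.PT

theorem perm1 (h : S_CLsym) {T : ℤ → Pt} (hC : Cyc T) (s t : ℤ) (hs : 0 < s) (ht : 0 < t)
    (hst : s + t < 24) : CL T s t = CL T t s := (h T hC s t hs ht hst).1

/-- rotation of the gaps -/
theorem perm2 (h : S_CLsym) {T : ℤ → Pt} (hC : Cyc T) (s t u : ℤ) (hs : 0 < s) (ht : 0 < t)
    (hu : 0 < u) (hst : s + t + u = 24) : CL T s t = CL T t u := by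
  have := (h T hC s t hs ht (by omega)).2
  rwa [show 24 - s - t = u by omega] at this

theorem perm3 (h : S_CLsym) {T : ℤ → Pt} (hC : Cyc T) (s t u : ℤ) (hs : 0 < s) (ht : 0 < t)
    (hu : 0 < u) (hst : s + t + u = 24) : CL T s t = CL T u s :=
  (perm2 h hC s t u hs ht hu hst).trans (perm2 h hC t u s ht hu hs (by omega))

theorem perm4 (h : S_CLsym) {T : ℤ → Pt} (hC : Cyc T) (s t u : ℤ) (hs : 0 < s) (ht : 0 < t)
    (hu : 0 < u) (hst : s + t + u = 24) : CL T s t = CL T s u :=
  (perm3 h hC s t u hs ht hu hst).trans (perm1 h hC u s hu hs (by omega))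

theorem perm5 (h : S_CLsym) {T : ℤ → Pt} (hC : Cyc T) (s t u : ℤ) (hs : 0 < s) (ht : 0 < t)
    (hu : 0 < u) (hst : s + t + u = 24) : CL T s t = CL T u t :=
  (perm2 h hC s t u hs ht hu hst).trans (perm1 h hC t u ht hu (by omega))

theorem pto (h : S_CLpto) {T : ℤ → Pt} (hC : Cyc T) (b c d e x1 x2 x3 x4 x5 x6 : ℤ) (h0 : 0 < b)
    (h1 : b < c) (h2 : c < d) (h3 : d < e) (h4 : e < 24) (e1 : c - b = x1) (e2 : e - d = x2)
    (e3 : d - b = x3) (e4 : e - c = x4) (e5 : e - b = x5) (e6 : d - c = x6) :
    CL T b x1 + CL T d x2 < CL T b x3 + CL T c x4 ∧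
    CL T b x5 + CL T c x6 < CL T b x3 + CL T c x4 := by
  subst e1 e2 e3 e4 e5 e6
  exact h T hC b c d e h0 h1 h2 h3 h4

theorem hcl_of {T : ℤ → Pt} (hP : HPos T) (g1 g2 g3 g4 g5 : ℤ) (h1 : 0 < g1) (h2 : 0 < g2)
    (h3 : 0 < g3) (h4 : 0 < g4) (h5 : 0 < g5) (h : g1 + g2 + g3 + g4 + g5 ≤ 11) :
    HCl T g1 g2 g3 g4 g5 := by
  intro r
  exact ⟨hP _ _ _ _ _ _ (by omega) (by omega) (by omega) (by omega) (by omega) (by omega),
    hP _ _ _ _ _ _ (by omega) (by omega) (by omega) (by omega) (by omega) (by omega)⟩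

theorem hex (h : S_CLhex) {T : ℤ → Pt} (hC : Cyc T) (g1 g2 g3 g4 g5 x1 x2 x3 x4 x5 x6 x7 : ℤ)
    (h1 : 0 < g1) (h2 : 0 < g2) (h3 : 0 < g3) (h4 : 0 < g4) (h5 : 0 < g5)
    (hs : g1 + g2 + g3 + g4 + g5 < 24) (hH : HCl T g1 g2 g3 g4 g5)
    (e1 : g1 + g2 = x1) (e2 : g2 + g3 + g4 = x2) (e3 : g1 + g2 + g3 = x3) (e4 : g4 + g5 = x4)
    (e5 : g3 + g4 = x5) (e6 : g2 + g3 = x6) (e7 : g3 + g4 + g5 = x7) :
    CL T x1 g3 + CL T x2 g5 < CL T x3 x4 + CL T g2 x5 ∧
    CL T g1 x6 + CL T x5 g5 < CL T x3 g4 + CL T g2 x7 ∧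
    CL T g1 x2 + CL T g3 x4 < CL T x1 x7 + CL T x6 g4 := by
  subst e1 e2 e3 e4 e5 e6 e7
  exact h T hC g1 g2 g3 g4 g5 h1 h2 h3 h4 h5 hs hH

theorem lp : S_Der → S_Der' → S_CLsym → S_CLhex → S_CLpto → S_LP := by
  intro hder hder' hsym hhex hpto T hC hP
  have h0 : CL T 5 6 + CL T 6 9 < CL T 5 9 + CL T 6 6 := by
    have h := (pto hpto hC 5 6 15 18 1 3 10 12 13 9 (by norm_num) (by norm_num) (by norm_num) (by norm_num) (by norm_num) (by norm_num) (by norm_num) (by norm_num) (by norm_num) (by norm_num) (by norm_num)).2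
    rwa [perm4 hsym hC 5 13 6 (by norm_num) (by norm_num) (by norm_num) (by norm_num),
      perm4 hsym hC 5 10 9 (by norm_num) (by norm_num) (by norm_num) (by norm_num),
      perm3 hsym hC 6 12 6 (by norm_num) (by norm_num) (by norm_num) (by norm_num)] at h
  have h1 : CL T 4 8 + CL T 5 6 < CL T 4 7 + CL T 5 7 := by
    have h := (pto hpto hC 4 5 11 12 1 1 7 7 8 6 (by norm_num) (by norm_num) (by norm_num) (by norm_num) (by norm_num) (by norm_num) (by norm_num) (by norm_num) (by norm_num) (by norm_num) (by norm_num)).2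
    exact h
  have h2 : CL T 5 5 + CL T 6 8 < CL T 5 8 + CL T 5 6 := by
    have h := (pto hpto hC 5 6 16 19 1 3 11 13 14 10 (by norm_num) (by norm_num) (by norm_num) (by norm_num) (by norm_num) (by norm_num) (by norm_num) (by norm_num) (by norm_num) (by norm_num) (by norm_num)).2
    rwa [perm3 hsym hC 5 14 5 (by norm_num) (by norm_num) (by norm_num) (by norm_num),
      perm4 hsym hC 6 10 8 (by norm_num) (by norm_num) (by norm_num) (by norm_num),
      perm4 hsym hC 5 11 8 (by norm_num) (by norm_num) (by norm_num) (by norm_num),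
      perm3 hsym hC 6 13 5 (by norm_num) (by norm_num) (by norm_num) (by norm_num)] at h
  have h3 : CL T 7 8 + CL T 4 9 < CL T 6 7 + CL T 6 9 := by
    have h := (pto hpto hC 7 9 13 15 2 2 6 6 8 4 (by norm_num) (by norm_num) (by norm_num) (by norm_num) (by norm_num) (by norm_num) (by norm_num) (by norm_num) (by norm_num) (by norm_num) (by norm_num)).2
    rwa [perm1 hsym hC 9 4 (by norm_num) (by norm_num) (by norm_num),
      perm1 hsym hC 7 6 (by norm_num) (by norm_num) (by norm_num),
      perm1 hsym hC 9 6 (by norm_num) (by norm_num) (by norm_num)] at h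
  have h4 : CL T 2 8 + CL T 3 10 < CL T 2 11 + CL T 3 8 := by
    have h := (pto hpto hC 2 3 13 16 1 3 11 13 14 10 (by norm_num) (by norm_num) (by norm_num) (by norm_num) (by norm_num) (by norm_num) (by norm_num) (by norm_num) (by norm_num) (by norm_num) (by norm_num)).2
    rwa [perm4 hsym hC 2 14 8 (by norm_num) (by norm_num) (by norm_num) (by norm_num),
      perm4 hsym hC 3 13 8 (by norm_num) (by norm_num) (by norm_num) (by norm_num)] at h
  have h5 : CL T 3 5 + CL T 7 7 < CL T 3 7 + CL T 5 7 := by
    have h := (pto hpto hC 3 7 17 19 4 2 14 12 16 10 (by norm_num) (by norm_num) (by norm_num) (by norm_num) (by norm_num) (by norm_num) (by norm_num) (by norm_num) (by norm_num) (by norm_num) (by norm_num)).2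
    rwa [perm4 hsym hC 3 16 5 (by norm_num) (by norm_num) (by norm_num) (by norm_num),
      perm3 hsym hC 7 10 7 (by norm_num) (by norm_num) (by norm_num) (by norm_num),
      perm4 hsym hC 3 14 7 (by norm_num) (by norm_num) (by norm_num) (by norm_num),
      perm3 hsym hC 7 12 5 (by norm_num) (by norm_num) (by norm_num) (by norm_num)] at h
  have h6 : CL T 7 8 + CL T 2 11 < CL T 5 8 + CL T 4 9 := by
    have h := (pto hpto hC 8 11 13 15 3 2 5 4 7 2 (by norm_num) (by norm_num) (by norm_num) (by norm_num) (by norm_num) (by norm_num) (by norm_num) (by norm_num) (by norm_num) (by norm_num) (by norm_num)).2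
    rwa [perm1 hsym hC 8 7 (by norm_num) (by norm_num) (by norm_num),
      perm1 hsym hC 11 2 (by norm_num) (by norm_num) (by norm_num),
      perm1 hsym hC 8 5 (by norm_num) (by norm_num) (by norm_num),
      perm2 hsym hC 11 4 9 (by norm_num) (by norm_num) (by norm_num) (by norm_num)] at h
  have h7 : CL T 5 9 + CL T 2 10 < CL T 3 9 + CL T 4 10 := by
    have h := (pto hpto hC 9 10 12 14 1 2 3 4 5 2 (by norm_num) (by norm_num) (by norm_num) (by norm_num) (by norm_num) (by norm_num) (by norm_num) (by norm_num) (by norm_num) (by norm_num) (by norm_num)).2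
    rwa [perm1 hsym hC 9 5 (by norm_num) (by norm_num) (by norm_num),
      perm1 hsym hC 10 2 (by norm_num) (by norm_num) (by norm_num),
      perm1 hsym hC 9 3 (by norm_num) (by norm_num) (by norm_num),
      perm1 hsym hC 10 4 (by norm_num) (by norm_num) (by norm_num)] at h
  have h8 : CL T 2 7 + CL T 5 9 < CL T 2 10 + CL T 5 7 := by
    have h := (pto hpto hC 2 5 14 17 3 3 12 12 15 9 (by norm_num) (by norm_num) (by norm_num) (by norm_num) (by norm_num) (by norm_num) (by norm_num) (by norm_num) (by norm_num) (by norm_num) (by norm_num)).2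
    rwa [perm4 hsym hC 2 15 7 (by norm_num) (by norm_num) (by norm_num) (by norm_num),
      perm4 hsym hC 2 12 10 (by norm_num) (by norm_num) (by norm_num) (by norm_num),
      perm4 hsym hC 5 12 7 (by norm_num) (by norm_num) (by norm_num) (by norm_num)] at h
  have h9 : CL T 3 3 + CL T 6 7 < CL T 3 4 + CL T 6 6 := by
    have h := (pto hpto hC 3 6 7 18 3 11 4 12 15 1 (by norm_num) (by norm_num) (by norm_num) (by norm_num) (by norm_num) (by norm_num) (by norm_num) (by norm_num) (by norm_num) (by norm_num) (by norm_num)).1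
    rwa [perm3 hsym hC 7 11 6 (by norm_num) (by norm_num) (by norm_num) (by norm_num),
      perm3 hsym hC 6 12 6 (by norm_num) (by norm_num) (by norm_num) (by norm_num)] at h
  have h10 : CL T 3 4 + CL T 3 4 < CL T 1 7 + CL T 1 7 := by
    have h := (hex hhex hC 3 1 3 1 3 4 5 7 4 4 4 7 (by norm_num) (by norm_num) (by norm_num) (by norm_num) (by norm_num) (by norm_num) (hcl_of hP 3 1 3 1 3 (by norm_num) (by norm_num) (by norm_num) (by norm_num) (by norm_num) (by norm_num)) (by norm_num) (by norm_num) (by norm_num) (by norm_num) (by norm_num) (by norm_num) (by norm_num)).2.1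
    rwa [perm1 hsym hC 4 3 (by norm_num) (by norm_num) (by norm_num),
      perm1 hsym hC 7 1 (by norm_num) (by norm_num) (by norm_num)] at h
  have h11 : CL T 1 7 + CL T 2 2 < CL T 1 3 + CL T 2 6 := by
    have h := (pto hpto hC 1 2 4 8 1 4 3 6 7 2 (by norm_num) (by norm_num) (by norm_num) (by norm_num) (by norm_num) (by norm_num) (by norm_num) (by norm_num) (by norm_num) (by norm_num) (by norm_num)).2
    exact h
  have h12 : CL T 4 8 + CL T 3 6 < CL T 4 5 + CL T 6 6 := by
    have h := (pto hpto hC 4 6 9 12 2 3 5 6 8 3 (by norm_num) (by norm_num) (by norm_num) (by norm_num) (by norm_num) (by norm_num) (by norm_num) (by norm_num) (by norm_num) (by norm_num) (by norm_num)).2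
    rwa [perm1 hsym hC 6 3 (by norm_num) (by norm_num) (by norm_num)] at h
  have h13 : CL T 4 5 + CL T 5 8 < CL T 4 8 + CL T 5 5 := by
    have h := (pto hpto hC 4 5 16 19 1 3 12 14 15 11 (by norm_num) (by norm_num) (by norm_num) (by norm_num) (by norm_num) (by norm_num) (by norm_num) (by norm_num) (by norm_num) (by norm_num) (by norm_num)).2
    rwa [perm4 hsym hC 4 15 5 (by norm_num) (by norm_num) (by norm_num) (by norm_num),
      perm4 hsym hC 5 11 8 (by norm_num) (by norm_num) (by norm_num) (by norm_num),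
      perm4 hsym hC 4 12 8 (by norm_num) (by norm_num) (by norm_num) (by norm_num),
      perm3 hsym hC 5 14 5 (by norm_num) (by norm_num) (by norm_num) (by norm_num)] at h
  have h14 : CL T 2 3 + CL T 6 7 < CL T 3 3 + CL T 5 7 := by
    have h := (pto hpto hC 3 5 6 17 2 11 3 12 14 1 (by norm_num) (by norm_num) (by norm_num) (by norm_num) (by norm_num) (by norm_num) (by norm_num) (by norm_num) (by norm_num) (by norm_num) (by norm_num)).1
    rwa [perm1 hsym hC 3 2 (by norm_num) (by norm_num) (by norm_num),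
      perm4 hsym hC 6 11 7 (by norm_num) (by norm_num) (by norm_num) (by norm_num),
      perm4 hsym hC 5 12 7 (by norm_num) (by norm_num) (by norm_num) (by norm_num)] at h
  have h15 : CL T 4 10 + CL T 2 11 < CL T 3 10 + CL T 3 10 := by
    have h := (pto hpto hC 10 11 13 14 1 1 3 3 4 2 (by norm_num) (by norm_num) (by norm_num) (by norm_num) (by norm_num) (by norm_num) (by norm_num) (by norm_num) (by norm_num) (by norm_num) (by norm_num)).2
    rwa [perm1 hsym hC 10 4 (by norm_num) (by norm_num) (by norm_num),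
      perm1 hsym hC 11 2 (by norm_num) (by norm_num) (by norm_num),
      perm1 hsym hC 10 3 (by norm_num) (by norm_num) (by norm_num),
      perm2 hsym hC 11 3 10 (by norm_num) (by norm_num) (by norm_num) (by norm_num)] at h
  have h16 : CL T 1 5 + CL T 2 3 < CL T 1 4 + CL T 2 4 := by
    have h := (pto hpto hC 1 2 5 6 1 1 4 4 5 3 (by norm_num) (by norm_num) (by norm_num) (by norm_num) (by norm_num) (by norm_num) (by norm_num) (by norm_num) (by norm_num) (by norm_num) (by norm_num)).2
    exact h
  have h17 : CL T 1 3 + CL T 4 8 < CL T 1 8 + CL T 3 4 := by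
    have h := (pto hpto hC 1 4 16 21 3 5 15 17 20 12 (by norm_num) (by norm_num) (by norm_num) (by norm_num) (by norm_num) (by norm_num) (by norm_num) (by norm_num) (by norm_num) (by norm_num) (by norm_num)).2
    rwa [perm4 hsym hC 1 20 3 (by norm_num) (by norm_num) (by norm_num) (by norm_num),
      perm4 hsym hC 4 12 8 (by norm_num) (by norm_num) (by norm_num) (by norm_num),
      perm4 hsym hC 1 15 8 (by norm_num) (by norm_num) (by norm_num) (by norm_num),
      perm3 hsym hC 4 17 3 (by norm_num) (by norm_num) (by norm_num) (by norm_num)] at h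
  have h18 : CL T 3 3 + CL T 4 4 < CL T 3 4 + CL T 3 4 := by
    have h := (pto hpto hC 3 4 20 21 1 1 17 17 18 16 (by norm_num) (by norm_num) (by norm_num) (by norm_num) (by norm_num) (by norm_num) (by norm_num) (by norm_num) (by norm_num) (by norm_num) (by norm_num)).2
    rwa [perm3 hsym hC 3 18 3 (by norm_num) (by norm_num) (by norm_num) (by norm_num),
      perm3 hsym hC 4 16 4 (by norm_num) (by norm_num) (by norm_num) (by norm_num),
      perm4 hsym hC 3 17 4 (by norm_num) (by norm_num) (by norm_num) (by norm_num),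
      perm3 hsym hC 4 17 3 (by norm_num) (by norm_num) (by norm_num) (by norm_num)] at h
  have h19 : CL T 2 2 + CL T 5 5 < CL T 2 5 + CL T 2 5 := by
    have h := (pto hpto hC 2 5 19 22 3 3 17 17 20 14 (by norm_num) (by norm_num) (by norm_num) (by norm_num) (by norm_num) (by norm_num) (by norm_num) (by norm_num) (by norm_num) (by norm_num) (by norm_num)).2
    rwa [perm3 hsym hC 2 20 2 (by norm_num) (by norm_num) (by norm_num) (by norm_num),
      perm3 hsym hC 5 14 5 (by norm_num) (by norm_num) (by norm_num) (by norm_num),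
      perm4 hsym hC 2 17 5 (by norm_num) (by norm_num) (by norm_num) (by norm_num),
      perm3 hsym hC 5 17 2 (by norm_num) (by norm_num) (by norm_num) (by norm_num)] at h
  have h20 : CL T 2 2 + CL T 7 7 < CL T 2 7 + CL T 2 7 := by
    have h := (pto hpto hC 2 7 17 22 5 5 15 15 20 10 (by norm_num) (by norm_num) (by norm_num) (by norm_num) (by norm_num) (by norm_num) (by norm_num) (by norm_num) (by norm_num) (by norm_num) (by norm_num)).2
    rwa [perm3 hsym hC 2 20 2 (by norm_num) (by norm_num) (by norm_num) (by norm_num),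
      perm3 hsym hC 7 10 7 (by norm_num) (by norm_num) (by norm_num) (by norm_num),
      perm4 hsym hC 2 15 7 (by norm_num) (by norm_num) (by norm_num) (by norm_num),
      perm3 hsym hC 7 15 2 (by norm_num) (by norm_num) (by norm_num) (by norm_num)] at h
  have h21 : CL T 4 6 + CL T 7 7 < CL T 4 7 + CL T 6 7 := by
    have h := (pto hpto hC 4 7 17 18 3 1 13 11 14 10 (by norm_num) (by norm_num) (by norm_num) (by norm_num) (by norm_num) (by norm_num) (by norm_num) (by norm_num) (by norm_num) (by norm_num) (by norm_num)).2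
    rwa [perm4 hsym hC 4 14 6 (by norm_num) (by norm_num) (by norm_num) (by norm_num),
      perm3 hsym hC 7 10 7 (by norm_num) (by norm_num) (by norm_num) (by norm_num),
      perm4 hsym hC 4 13 7 (by norm_num) (by norm_num) (by norm_num) (by norm_num),
      perm3 hsym hC 7 11 6 (by norm_num) (by norm_num) (by norm_num) (by norm_num)] at h
  have h22 : CL T 2 6 + CL T 2 6 < CL T 1 8 + CL T 1 8 := by
    have h := (hex hhex hC 2 1 5 1 2 3 7 8 3 6 6 8 (by norm_num) (by norm_num) (by norm_num) (by norm_num) (by norm_num) (by norm_num) (hcl_of hP 2 1 5 1 2 (by norm_num) (by norm_num) (by norm_num) (by norm_num) (by norm_num) (by norm_num)) (by norm_num) (by norm_num) (by norm_num) (by norm_num) (by norm_num) (by norm_num) (by norm_num)).2.1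
    rwa [perm1 hsym hC 6 2 (by norm_num) (by norm_num) (by norm_num),
      perm1 hsym hC 8 1 (by norm_num) (by norm_num) (by norm_num)] at h
  have h23 : CL T 2 5 + CL T 3 5 < CL T 3 8 + CL T 1 4 := by
    have h := (hex hhex hC 2 1 3 1 4 3 5 6 5 4 4 8 (by norm_num) (by norm_num) (by norm_num) (by norm_num) (by norm_num) (by norm_num) (hcl_of hP 2 1 3 1 4 (by norm_num) (by norm_num) (by norm_num) (by norm_num) (by norm_num) (by norm_num)) (by norm_num) (by norm_num) (by norm_num) (by norm_num) (by norm_num) (by norm_num) (by norm_num)).2.2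
    rwa [perm1 hsym hC 4 1 (by norm_num) (by norm_num) (by norm_num)] at h
  have h24 : CL T 2 2 + CL T 2 2 < CL T 1 4 + CL T 1 4 := by
    have h := (hex hhex hC 2 1 1 1 2 3 3 4 3 2 2 4 (by norm_num) (by norm_num) (by norm_num) (by norm_num) (by norm_num) (by norm_num) (hcl_of hP 2 1 1 1 2 (by norm_num) (by norm_num) (by norm_num) (by norm_num) (by norm_num) (by norm_num)) (by norm_num) (by norm_num) (by norm_num) (by norm_num) (by norm_num) (by norm_num) (by norm_num)).2.1
    rwa [perm1 hsym hC 4 1 (by norm_num) (by norm_num) (by norm_num)] at h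
  have h25 : CL T 1 4 + CL T 2 5 < CL T 1 5 + CL T 2 4 := by
    have h := (pto hpto hC 1 2 19 20 1 1 18 18 19 17 (by norm_num) (by norm_num) (by norm_num) (by norm_num) (by norm_num) (by norm_num) (by norm_num) (by norm_num) (by norm_num) (by norm_num) (by norm_num)).2
    rwa [perm4 hsym hC 1 19 4 (by norm_num) (by norm_num) (by norm_num) (by norm_num),
      perm4 hsym hC 2 17 5 (by norm_num) (by norm_num) (by norm_num) (by norm_num),
      perm4 hsym hC 1 18 5 (by norm_num) (by norm_num) (by norm_num) (by norm_num),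
      perm4 hsym hC 2 18 4 (by norm_num) (by norm_num) (by norm_num) (by norm_num)] at h
  have h26 : CL T 3 8 + CL T 5 9 < CL T 3 9 + CL T 5 8 := by
    have h := (pto hpto hC 3 5 15 16 2 1 12 11 13 10 (by norm_num) (by norm_num) (by norm_num) (by norm_num) (by norm_num) (by norm_num) (by norm_num) (by norm_num) (by norm_num) (by norm_num) (by norm_num)).2
    rwa [perm4 hsym hC 3 13 8 (by norm_num) (by norm_num) (by norm_num) (by norm_num),
      perm4 hsym hC 5 10 9 (by norm_num) (by norm_num) (by norm_num) (by norm_num),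
      perm4 hsym hC 3 12 9 (by norm_num) (by norm_num) (by norm_num) (by norm_num),
      perm4 hsym hC 5 11 8 (by norm_num) (by norm_num) (by norm_num) (by norm_num)] at h
  have h27 : CL T 2 6 + CL T 4 8 < CL T 2 8 + CL T 4 6 := by
    have h := (pto hpto hC 2 4 16 18 2 2 14 14 16 12 (by norm_num) (by norm_num) (by norm_num) (by norm_num) (by norm_num) (by norm_num) (by norm_num) (by norm_num) (by norm_num) (by norm_num) (by norm_num)).2
    rwa [perm4 hsym hC 2 16 6 (by norm_num) (by norm_num) (by norm_num) (by norm_num),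
      perm4 hsym hC 4 12 8 (by norm_num) (by norm_num) (by norm_num) (by norm_num),
      perm4 hsym hC 2 14 8 (by norm_num) (by norm_num) (by norm_num) (by norm_num),
      perm4 hsym hC 4 14 6 (by norm_num) (by norm_num) (by norm_num) (by norm_num)] at h
  have h28 : CL T 2 2 + CL T 5 7 < CL T 2 3 + CL T 4 7 := by
    have h := (pto hpto hC 2 4 5 17 2 12 3 13 15 1 (by norm_num) (by norm_num) (by norm_num) (by norm_num) (by norm_num) (by norm_num) (by norm_num) (by norm_num) (by norm_num) (by norm_num) (by norm_num)).1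
    rwa [perm4 hsym hC 5 12 7 (by norm_num) (by norm_num) (by norm_num) (by norm_num),
      perm4 hsym hC 4 13 7 (by norm_num) (by norm_num) (by norm_num) (by norm_num)] at h
  have h29 : CL T 1 5 + CL T 4 7 < CL T 1 7 + CL T 4 5 := by
    have h := (pto hpto hC 1 4 17 19 3 2 16 15 18 13 (by norm_num) (by norm_num) (by norm_num) (by norm_num) (by norm_num) (by norm_num) (by norm_num) (by norm_num) (by norm_num) (by norm_num) (by norm_num)).2
    rwa [perm4 hsym hC 1 18 5 (by norm_num) (by norm_num) (by norm_num) (by norm_num),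
      perm4 hsym hC 4 13 7 (by norm_num) (by norm_num) (by norm_num) (by norm_num),
      perm4 hsym hC 1 16 7 (by norm_num) (by norm_num) (by norm_num) (by norm_num),
      perm4 hsym hC 4 15 5 (by norm_num) (by norm_num) (by norm_num) (by norm_num)] at h
  have h30 : CL T 6 7 + CL T 7 8 < CL T 6 8 + CL T 7 7 := by
    have h := (pto hpto hC 6 7 16 17 1 1 10 10 11 9 (by norm_num) (by norm_num) (by norm_num) (by norm_num) (by norm_num) (by norm_num) (by norm_num) (by norm_num) (by norm_num) (by norm_num) (by norm_num)).2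
    rwa [perm4 hsym hC 6 11 7 (by norm_num) (by norm_num) (by norm_num) (by norm_num),
      perm4 hsym hC 7 9 8 (by norm_num) (by norm_num) (by norm_num) (by norm_num),
      perm4 hsym hC 6 10 8 (by norm_num) (by norm_num) (by norm_num) (by norm_num),
      perm3 hsym hC 7 10 7 (by norm_num) (by norm_num) (by norm_num) (by norm_num)] at h
  have hH : HCl T 6 2 1 1 7 := by
    intro r
    exact ⟨hder T hC hP _ _ _ _ _ _ (by omega) (by omega) (by omega) (by omega) (by omega)
      (by omega) (by omega), hder' T hC hP _ _ _ _ _ _ (by omega) (by omega) (by omega) (by omega)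
      (by omega) (by omega) (by omega)⟩
  have h31 : CL T 1 8 + CL T 4 7 < CL T 7 8 + CL T 2 2 := by
    have h := (hex hhex hC 6 2 1 1 7 8 4 9 8 2 3 9 (by norm_num) (by norm_num) (by norm_num) (by norm_num) (by norm_num) (by norm_num) hH (by norm_num) (by norm_num) (by norm_num) (by norm_num) (by norm_num) (by norm_num) (by norm_num)).1
    rwa [perm1 hsym hC 8 1 (by norm_num) (by norm_num) (by norm_num),
      perm5 hsym hC 9 8 7 (by norm_num) (by norm_num) (by norm_num) (by norm_num)] at h
  have h32 : CL T 2 5 + CL T 3 9 < CL T 2 9 + CL T 3 5 := by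
    have h := (pto hpto hC 2 3 15 19 1 4 13 16 17 12 (by norm_num) (by norm_num) (by norm_num) (by norm_num) (by norm_num) (by norm_num) (by norm_num) (by norm_num) (by norm_num) (by norm_num) (by norm_num)).2
    rwa [perm4 hsym hC 2 17 5 (by norm_num) (by norm_num) (by norm_num) (by norm_num),
      perm4 hsym hC 3 12 9 (by norm_num) (by norm_num) (by norm_num) (by norm_num),
      perm4 hsym hC 2 13 9 (by norm_num) (by norm_num) (by norm_num) (by norm_num),
      perm4 hsym hC 3 16 5 (by norm_num) (by norm_num) (by norm_num) (by norm_num)] at h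
  have h33 : CL T 2 9 + CL T 2 9 < CL T 2 11 + CL T 2 11 := by
    have h := (pto hpto hC 2 11 13 22 9 9 11 11 20 2 (by norm_num) (by norm_num) (by norm_num) (by norm_num) (by norm_num) (by norm_num) (by norm_num) (by norm_num) (by norm_num) (by norm_num) (by norm_num)).1
    rwa [perm5 hsym hC 13 9 2 (by norm_num) (by norm_num) (by norm_num) (by norm_num),
      perm3 hsym hC 11 11 2 (by norm_num) (by norm_num) (by norm_num) (by norm_num)] at h
  have h34 : CL T 4 6 + CL T 3 5 < CL T 4 4 + CL T 5 5 := by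
    have h := (pto hpto hC 4 5 8 10 1 2 4 5 6 3 (by norm_num) (by norm_num) (by norm_num) (by norm_num) (by norm_num) (by norm_num) (by norm_num) (by norm_num) (by norm_num) (by norm_num) (by norm_num)).2
    rwa [perm1 hsym hC 5 3 (by norm_num) (by norm_num) (by norm_num)] at h
  have h35 : CL T 3 4 + CL T 5 6 < CL T 3 6 + CL T 4 5 := by
    have h := (pto hpto hC 3 5 18 20 2 2 15 15 17 13 (by norm_num) (by norm_num) (by norm_num) (by norm_num) (by norm_num) (by norm_num) (by norm_num) (by norm_num) (by norm_num) (by norm_num) (by norm_num)).2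
    rwa [perm4 hsym hC 3 17 4 (by norm_num) (by norm_num) (by norm_num) (by norm_num),
      perm4 hsym hC 5 13 6 (by norm_num) (by norm_num) (by norm_num) (by norm_num),
      perm4 hsym hC 3 15 6 (by norm_num) (by norm_num) (by norm_num) (by norm_num),
      perm3 hsym hC 5 15 4 (by norm_num) (by norm_num) (by norm_num) (by norm_num)] at h
  have h36 : CL T 1 8 + CL T 3 5 < CL T 1 7 + CL T 3 6 := by
    have h := (pto hpto hC 1 3 8 9 2 1 7 6 8 5 (by norm_num) (by norm_num) (by norm_num) (by norm_num) (by norm_num) (by norm_num) (by norm_num) (by norm_num) (by norm_num) (by norm_num) (by norm_num)).2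
    exact h
  have h37 : CL T 2 4 + CL T 6 6 < CL T 2 6 + CL T 4 6 := by
    have h := (pto hpto hC 2 6 18 20 4 2 16 14 18 12 (by norm_num) (by norm_num) (by norm_num) (by norm_num) (by norm_num) (by norm_num) (by norm_num) (by norm_num) (by norm_num) (by norm_num) (by norm_num)).2
    rwa [perm4 hsym hC 2 18 4 (by norm_num) (by norm_num) (by norm_num) (by norm_num),
      perm3 hsym hC 6 12 6 (by norm_num) (by norm_num) (by norm_num) (by norm_num),
      perm4 hsym hC 2 16 6 (by norm_num) (by norm_num) (by norm_num) (by norm_num),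
      perm3 hsym hC 6 14 4 (by norm_num) (by norm_num) (by norm_num) (by norm_num)] at h
  have h38 : CL T 6 6 + CL T 3 7 < CL T 4 6 + CL T 5 7 := by
    have h := (pto hpto hC 6 7 10 12 1 2 4 5 6 3 (by norm_num) (by norm_num) (by norm_num) (by norm_num) (by norm_num) (by norm_num) (by norm_num) (by norm_num) (by norm_num) (by norm_num) (by norm_num)).2
    rwa [perm1 hsym hC 7 3 (by norm_num) (by norm_num) (by norm_num),
      perm1 hsym hC 6 4 (by norm_num) (by norm_num) (by norm_num),
      perm1 hsym hC 7 5 (by norm_num) (by norm_num) (by norm_num)] at h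
  have : (0 : ℝ) < 0 := by
    linear_combination 678 * h0 + 824 * h1 + 3016 * h2 + 678 * h3 + 296 * h4 + 14 * h5 + 678 * h6 + 148 * h7 + 148 * h8 + 238 * h9 + 39 * h10 + 1126 * h11 + 1830 * h12 + 4076 * h13 + 352 * h14 + 148 * h15 + 1000 * h16 + 1126 * h17 + 114 * h18 + 1174 * h19 + 74 * h20 + 2928 * h21 + 1781 * h22 + 86 * h23 + 323 * h24 + 1732 * h25 + 382 * h26 + 296 * h27 + 1352 * h28 + 732 * h29 + 3016 * h30 + 4372 * h31 + 530 * h32 + 265 * h33 + 114 * h34 + 1514 * h35 + 316 * h36 + 2732 * h37 + 14 * h38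
  exact lt_irrefl _ this

end Pool.Agent.W347.PT
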